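import Pool.Agent.Helper66_D1.Stmts

/-!
# Squad PP, part D1, module SOC: semisimplicity of the restriction to a normal subgroup
-/

open scoped BigOperators

noncomputable section

namespace Pool.Agent.PP.D1.H71

open Pool.Agent.PP

section gen

variable {F : Type} [Field F] {G : Type} [Group G] {V : Type} [AddCommGroup V] [Module F V]

theorem stb_inf {N : Subgroup G} {ρ : Representation F G V} {W W' : Submodule F V}
    (h : Stb N ρ W) (h' : Stb N ρ W') : Stb N ρ (W ⊓ W') :=
  fun n hn v hv => ⟨h n hn v hv.1, h' n hn v hv.2⟩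

theorem stb_sup {N : Subgroup G} {ρ : Representation F G V} {W W' : Submodule F V}
    (h : Stb N ρ W) (h' : Stb N ρ W') : Stb N ρ (W ⊔ W') := by
  intro n hn v hv
  obtain ⟨a, ha, b, hb, rfl⟩ := Submodule.mem_sup.1 hv
  rw [map_add]
  exact Submodule.add_mem_sup (h n hn a ha) (h' n hn b hb)

theorem stb_bot {N : Subgroup G} {ρ : Representation F G V} : Stb N ρ ⊥ := by
  intro n hn v hv
  rw [Submodule.mem_bot] at hv ⊢
  rw [hv, map_zero]

theorem stb_top {N : Subgroup G} {ρ : Representation F G V} : Stb N ρ ⊤ :=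
  fun _ _ _ _ => trivial

/-- A nonzero stable subspace of finite dimension contains a minimal one. -/
theorem exists_min [FiniteDimensional F V] {N : Subgroup G} {ρ : Representation F G V}
    {W : Submodule F V} (hW : Stb N ρ W) (h0 : W ≠ ⊥) : ∃ S : Submodule F V, S ≤ W ∧ S ≠ ⊥ ∧
      Stb N ρ S ∧ ∀ S' : Submodule F V, Stb N ρ S' → S' ≤ S → S' = ⊥ ∨ S' = S := by
  obtain ⟨S, ⟨hS1, hS2, hS3⟩, hmin⟩ := (wellFounded_lt (α := Submodule F V)).has_min
    {S | S ≤ W ∧ S ≠ ⊥ ∧ Stb N ρ S} ⟨W, le_refl _, h0, hW⟩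
  refine ⟨S, hS1, hS2, hS3, fun S' h1 h2 => ?_⟩
  by_contra h3
  push Not at h3
  exact hmin S' ⟨h2.trans hS1, h3.1, h1⟩ (lt_of_le_of_ne h2 h3.2)

/-- Complements. -/
theorem exists_compl [FiniteDimensional F V] {N : Subgroup G} {ρ : Representation F G V}
    (hρ : NSoc N ρ) {W : Submodule F V} (hW : Stb N ρ W) :
    ∃ C : Submodule F V, Stb N ρ C ∧ IsCompl W C := by
  obtain ⟨C, ⟨hC1, hC2⟩, hmax⟩ := (wellFounded_gt (α := Submodule F V)).has_min
    {C | Stb N ρ C ∧ W ⊓ C = ⊥} ⟨⊥, stb_bot, by rw [inf_bot_eq]⟩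
  refine ⟨C, hC1, disjoint_iff.2 hC2, ?_⟩
  rw [codisjoint_iff]
  by_contra hne
  obtain ⟨S, hS, hmin, hnle⟩ := hρ (W ⊔ C) (stb_sup hW hC1) hne
  have h1 : S ⊓ (W ⊔ C) = ⊥ := by
    rcases hmin _ (stb_inf hS (stb_sup hW hC1)) inf_le_left with h | h
    · exact h
    · exact absurd (inf_eq_left.1 h) hnle
  have h2 : W ⊓ (C ⊔ S) = ⊥ := by
    rw [eq_bot_iff]
    rintro v ⟨hv1, hv2⟩
    obtain ⟨a, ha, b, hb, rfl⟩ := Submodule.mem_sup.1 hv2
    have h3 : b ∈ S ⊓ (W ⊔ C) := by
      refine ⟨hb, ?_⟩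
      have h4 : b = (a + b) - a := by abel
      rw [h4]
      exact Submodule.sub_mem _ (Submodule.mem_sup_left hv1) (Submodule.mem_sup_right ha)
    rw [h1, Submodule.mem_bot] at h3
    rw [h3, add_zero] at hv1 ⊢
    rw [← hC2]
    exact ⟨hv1, ha⟩
  have h3 : ¬ C < C ⊔ S := fun h => hmax (C ⊔ S) ⟨stb_sup hC1 hS, h2⟩ h
  have h4 : S ≤ C := by
    by_contra h
    exact h3 (lt_of_le_of_ne le_sup_left (fun he => h (he ▸ le_sup_right)))
  exact hnle (h4.trans le_sup_right)

/-- The translate of a stable subspace is stable. -/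
theorem stb_map {N : Subgroup G} (hN : N.Normal) {ρ : Representation F G V} (g : G)
    {W : Submodule F V} (h : Stb N ρ W) : Stb N ρ (W.map (ρ g)) := by
  intro n hn v hv
  obtain ⟨w, hw, rfl⟩ := Submodule.mem_map.1 hv
  have h1 : g⁻¹ * n * g ∈ N := by
    have := hN.conj_mem n hn g⁻¹
    rwa [inv_inv] at this
  refine Submodule.mem_map.2 ⟨ρ (g⁻¹ * n * g) w, h _ h1 w hw, ?_⟩
  rw [← Module.End.mul_apply, ← map_mul, ← Module.End.mul_apply, ← map_mul]
  congr 2
  group

theorem map_map_inv (ρ : Representation F G V) (g : G) (W : Submodule F V) :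
    (W.map (ρ g⁻¹)).map (ρ g) = W := by
  ext v
  rw [Submodule.mem_map]
  constructor
  · rintro ⟨w, hw, rfl⟩
    obtain ⟨u, hu, rfl⟩ := Submodule.mem_map.1 hw
    rw [← Module.End.mul_apply, ← map_mul, mul_inv_cancel, map_one]
    exact hu
  · intro hv
    refine ⟨ρ g⁻¹ v, Submodule.mem_map_of_mem hv, ?_⟩
    rw [← Module.End.mul_apply, ← map_mul, mul_inv_cancel, map_one]
    rfl

/-- The translate of a minimal stable subspace is minimal. -/
theorem min_map {N : Subgroup G} (hN : N.Normal) {ρ : Representation F G V} (g : G)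
    {S : Submodule F V} (h : ∀ S' : Submodule F V, Stb N ρ S' → S' ≤ S → S' = ⊥ ∨ S' = S)
    (S' : Submodule F V) (h1 : Stb N ρ S') (h2 : S' ≤ S.map (ρ g)) :
    S' = ⊥ ∨ S' = S.map (ρ g) := by
  have h3 : S'.map (ρ g⁻¹) ≤ S := by
    have h4 : (S.map (ρ g)).map (ρ g⁻¹) = S := by
      have := map_map_inv ρ g⁻¹ S
      rwa [inv_inv] at this
    calc S'.map (ρ g⁻¹) ≤ (S.map (ρ g)).map (ρ g⁻¹) := Submodule.map_mono h2
      _ = S := h4
  rcases h _ (stb_map hN g⁻¹ h1) h3 with h4 | h4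
  · left
    rw [← map_map_inv ρ g S', h4, Submodule.map_bot]
  · right
    rw [← map_map_inv ρ g S', h4]

/-- A nonzero subspace of an irreducible representation which is stable under the group. -/
theorem top_of_stb {n : ℕ} {σ : G →* Matrix (Fin n) (Fin n) F} (hσ : IsIrr σ)
    {W : Submodule F (Fin n → F)} (h : Stb ⊤ (mrep σ) W) (hW : W ≠ ⊥) : W = ⊤ := by
  have h1 : ∀ A : Matrix (Fin n) (Fin n) F, ∀ w ∈ W, A.mulVec w ∈ W := by
    intro A w hw
    have hA : A ∈ Submodule.span F (Set.range σ) := by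
      rw [hσ.2]
      trivial
    induction hA using Submodule.span_induction with
    | mem a ha =>
      obtain ⟨g, rfl⟩ := ha
      exact h g trivial w hw
    | zero =>
      rw [Matrix.zero_mulVec]
      exact Submodule.zero_mem _
    | add a b _ _ h1 h2 =>
      rw [Matrix.add_mulVec]
      exact Submodule.add_mem _ h1 h2
    | smul c a _ h1 =>
      rw [Matrix.smul_mulVec]
      exact Submodule.smul_mem _ _ h1
  obtain ⟨w, hw, hw0⟩ := Submodule.exists_mem_ne_zero_of_ne_bot hW
  obtain ⟨i, hi⟩ := Function.ne_iff.1 hw0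
  rw [eq_top_iff]
  intro v _
  have h2 := h1 (Matrix.vecMulVec v (Pi.single i (w i)⁻¹)) w hw
  have h3 : (Matrix.vecMulVec v (Pi.single i (w i)⁻¹)).mulVec w = v := by
    rw [Matrix.vecMulVec_mulVec]
    have h4 : (Pi.single i (w i)⁻¹ : Fin n → F) ⬝ᵥ w = 1 := by
      rw [single_dotProduct]
      exact inv_mul_cancel₀ hi
    rw [h4]
    simp
  rwa [h3] at h2

/-- The sum of the translates of a subspace is stable under the group. -/
theorem stb_iSup (ρ : Representation F G V) (S : Submodule F V) :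
    Stb ⊤ ρ (⨆ g : G, S.map (ρ g)) := by
  intro g _ v hv
  induction hv using Submodule.iSup_induction' with
  | mem g' w hw =>
    apply Submodule.mem_iSup_of_mem (g * g')
    obtain ⟨u, hu, rfl⟩ := Submodule.mem_map.1 hw
    refine Submodule.mem_map.2 ⟨u, hu, ?_⟩
    rw [map_mul]
    rfl
  | zero =>
    rw [map_zero]
    exact Submodule.zero_mem _
  | add a b _ _ ha hb =>
    rw [map_add]
    exact Submodule.add_mem _ ha hb

/-- Clifford: the restriction of an irreducible representation to a normal subgroup. -/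
theorem nsoc_irr {N : Subgroup G} (hN : N.Normal) {n : ℕ} {σ : G →* Matrix (Fin n) (Fin n) F}
    (hσ : IsIrr σ) : NSoc N (mrep σ) := by
  intro W hW hWt
  have hn : 0 < n := hσ.1
  have hne : (⊤ : Submodule F (Fin n → F)) ≠ ⊥ := by
    have : Nonempty (Fin n) := ⟨⟨0, hn⟩⟩
    exact top_ne_bot
  obtain ⟨S, -, hS0, hS, hmin⟩ := exists_min (N := N) (ρ := mrep σ) stb_top hne
  by_contra hcon
  push Not at hcon
  have h1 : ∀ g : G, S.map (mrep σ g) ≤ W := fun g =>
    hcon _ (stb_map hN g hS) (min_map hN g hmin)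
  apply hWt
  have h2 : (⨆ g : G, S.map (mrep σ g)) = ⊤ := by
    apply top_of_stb hσ (stb_iSup _ S)
    intro h0
    apply hS0
    rw [eq_bot_iff, ← h0]
    intro w hw
    apply Submodule.mem_iSup_of_mem 1
    rw [map_one]
    exact Submodule.mem_map.2 ⟨w, hw, rfl⟩
  rw [eq_top_iff, ← h2]
  exact iSup_le h1

end gen

section prod

variable {F : Type} [Field F] {G : Type} [Group G] {V V' M : Type} [AddCommGroup V] [Module F V]
  [AddCommGroup V'] [Module F V'] [AddCommGroup M] [Module F M]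

/-- The image of a minimal stable subspace under an injective homomorphism. -/
theorem min_emb {N : Subgroup G} {ρ : Representation F G V} {τ : Representation F G M}
    (i : V →ₗ[F] M) (hi : Function.Injective i) (hc : ∀ g ∈ N, ∀ v, i (ρ g v) = τ g (i v))
    {W : Submodule F M} (hW : Stb N τ W) (hρ : NSoc N ρ) (hn : W.comap i ≠ ⊤) :
    ∃ S : Submodule F M, Stb N τ S ∧
      (∀ S' : Submodule F M, Stb N τ S' → S' ≤ S → S' = ⊥ ∨ S' = S) ∧ ¬ S ≤ W := by
  have h1 : Stb N ρ (W.comap i) := by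
    intro g hg v hv
    rw [Submodule.mem_comap] at hv ⊢
    rw [hc g hg]
    exact hW g hg _ hv
  obtain ⟨S, hS, hmin, hnle⟩ := hρ _ h1 hn
  refine ⟨S.map i, ?_, ?_, ?_⟩
  · intro g hg v hv
    obtain ⟨w, hw, rfl⟩ := Submodule.mem_map.1 hv
    rw [← hc g hg]
    exact Submodule.mem_map_of_mem (hS g hg w hw)
  · intro S' h2 h3
    have h4 : (S'.comap i).map i = S' := by
      rw [Submodule.map_comap_eq, inf_eq_right]
      exact h3.trans (LinearMap.map_le_range)
    have h5 : Stb N ρ (S'.comap i) := by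
      intro g hg v hv
      rw [Submodule.mem_comap] at hv ⊢
      rw [hc g hg]
      exact h2 g hg _ hv
    have h6 : S'.comap i ≤ S := by
      intro v hv
      obtain ⟨w, hw, hwv⟩ := Submodule.mem_map.1 (h3 (Submodule.mem_comap.1 hv))
      rwa [← hi hwv]
    rcases hmin _ h5 h6 with h7 | h7
    · left
      rw [← h4, h7, Submodule.map_bot]
    · right
      rw [← h4, h7]
  · intro h2
    apply hnle
    intro v hv
    exact h2 (Submodule.mem_map_of_mem hv)

theorem nsoc_prod {N : Subgroup G} {ρ : Representation F G V} {ρ' : Representation F G V'}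
    (h : NSoc N ρ) (h' : NSoc N ρ') : NSoc N (ρ.prod ρ') := by
  intro W hW hWt
  by_cases h1 : W.comap (LinearMap.inl F V V') = ⊤
  · by_cases h2 : W.comap (LinearMap.inr F V V') = ⊤
    · exfalso
      apply hWt
      rw [eq_top_iff]
      rintro ⟨a, b⟩ _
      have h3 : a ∈ W.comap (LinearMap.inl F V V') := by rw [h1]; trivial
      have h4 : b ∈ W.comap (LinearMap.inr F V V') := by rw [h2]; trivial
      have h5 : ((a, b) : V × V') = LinearMap.inl F V V' a + LinearMap.inr F V V' b := by simp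
      rw [h5]
      exact Submodule.add_mem _ h3 h4
    · refine min_emb (LinearMap.inr F V V') LinearMap.inr_injective ?_ hW h' h2
      intro g _ v
      change ((0 : V), ρ' g v) = ((ρ g) 0, (ρ' g) v)
      rw [map_zero]
  · refine min_emb (LinearMap.inl F V V') LinearMap.inl_injective ?_ hW h h1
    intro g _ v
    change (ρ g v, (0 : V')) = ((ρ g) v, (ρ' g) 0)
    rw [map_zero]

end prod

/-- SOC -/
theorem soc : SocStmt := by
  intro F _ G _ _ N hN
  refine ⟨fun n σ hσ => nsoc_irr hN hσ, ?_, ?_⟩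
  · intro V V' _ _ _ _ ρ ρ' h h'
    exact nsoc_prod h h'
  · intro V _ _ _ ρ hρ W hW
    exact exists_compl hρ hW

end Pool.Agent.PP.D1.H71
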